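import Pool.Agent.W_5a2b73_h94.Stmt

/-!
# MP_5a2b73_ag: the socle pairing of the tautological ring of `M_g` up to the middle degree

`R` is any commutative `ℚ`-algebra with elements `κ 1, κ 2, ...` and a linear functional `ε` with
Faber's intersection numbers: for all `a_1, ..., a_n ≥ 1` with `∑ a_i = g - 2`

  `ε (∑_{σ ∈ S_n} ∏_{cycles C of σ} κ_{a(C)}) = c (2g-3+n)! / ∏ (2 a_i + 1)!!`,  `c ≠ 0`

(for `R = R^*(M_g)` and an isomorphism `R^{g-2} = ℚ` this is Faber's intersection number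
formula).  Such a functional exists on `ℚ[κ_1, κ_2, ...]` for every `g` (first part of the
theorem).  `Rk κ k = R^k` is the image of the polynomials of weight `k` in the `κ_i`.

* (a) for every `k` with `2k + 1 ≤ g` the rank of `R^k × R^{g-2-k} → ℚ`, `(x,y) ↦ ε (x y)`, is at
  least `p(k) - p(3k-g-1)` (`p` = number of partitions, `p(n) = 0` for `n < 0`); in particular it
  is `p(k)` for `3k ≤ g` (there are then no relations of degree `k`);
* (b) `R^k → (R^{g-2-k})^∨` is injective for `3k ≤ g`, and also for `3k ≤ g + 2` if the `κ_i`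
  with `i > g/3` are polynomials in the `κ_j` with `j ≤ g/3` (theorem of Morita and Ionel for
  `R^*(M_g)`).
-/

open MvPolynomial Finset Module W5a2b73

namespace Pool.Agent.Results.MP_5a2b73_ag.SoclePairingRank

theorem result (g : ℕ) (hg : 2 ≤ g) :
    (∃ ε : MvPolynomial ℕ ℚ →ₗ[ℚ] ℚ, Faber g (fun i => X (i - 1)) ε 1) ∧
    ∀ {R : Type*} [CommRing R] [Algebra ℚ R] (κ : ℕ → R) (ε : R →ₗ[ℚ] ℚ) (c : ℚ), c ≠ 0 →
      Faber g κ ε c → ∀ k : ℕ, 2 * k + 1 ≤ g →
      (∃ W ≤ Rk κ k, LeftNondeg κ ε W (g - 2 - k) ∧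
        Fintype.card (Nat.Partition k) ≤ finrank ℚ W + defect g k) ∧
      ((3 * k ≤ g ∨ (3 * k ≤ g + 2 ∧ Generated g κ)) →
        LeftNondeg κ ε (Rk κ k) (g - 2 - k)) := by
  refine ⟨exists_faber g, ?_⟩
  intro R _ _ κ ε c hc hF k hk
  refine ⟨?_, ?_⟩
  · obtain ⟨W, hW, h1, h2⟩ := exists_leftNondeg κ ε k (g - 2 - k)
    refine ⟨W, hW, h2, ?_⟩
    rw [h1]
    exact part2 hg hc hF hk
  rintro (h | ⟨h, hgen⟩)
  · intro x hx hxy
    obtain ⟨P, hP, rfl⟩ := hx
    have hP0 : P = 0 := by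
      refine part1 hg hc hF h P hP ?_
      intro Q hQ
      exact hxy _ ⟨Q, hQ, rfl⟩
    subst hP0
    simp
  · exact leftNondeg_of_injective (part3 hg hc hF hgen hk h)

end Pool.Agent.Results.MP_5a2b73_ag.SoclePairingRank
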